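import Pool.Agent.Run7.h325.TW.Nest
import Pool.Agent.Run7.h325.TW.AR
import Pool.Agent.Run7.h325.TW.SMF
import Pool.Agent.Run7.h325.TW.SMB
import Pool.Agent.Run7.h325.TW.STF
import Pool.Agent.Run7.h325.TW.STB
import Pool.Agent.Run7.h325.TW.INIT
import Pool.Agent.Run7.h325.TW.FIN

set_option autoImplicit false

/-!
# The twisted recurrence has decaying solutions for a dense set of pairs of frequencies

Every pair `(α₀, β₀)` with `1 < |α₀|, |β₀| < 2` is a limit of pairs `(α, β)` of irrational numbers,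
`α ≠ β`, for which there are `x₀ ∈ [0,1]` and a nowhere vanishing solution along the orbit
`x₀ + ℤ` that tends to `0` in both directions: the answer to Q1 is positive for these pairs.

The pieces of the proof were written by helper300, helper183, helper409, helper415, helper559,
helper799 and helper325.
-/

namespace Pool.Agent.Results.MP_0ef687_an.DenseDecayingPairs

open Filter Topology Pool.Agent.Run7.h325.TW

theorem cs_sign (σ t : ℝ) (hσ : σ = 1 ∨ σ = -1) : cs (σ * t) = cs t := by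
  rcases hσ with rfl | rfl
  · rw [one_mul]
  · unfold cs
    rw [show Real.pi * (-1 * t) = -(Real.pi * t) by ring, Real.cos_neg]

theorem FF_sign (σ τ α β x : ℝ) (hσ : σ = 1 ∨ σ = -1) (hτ : τ = 1 ∨ τ = -1) (N : ℕ) :
    FF N (σ * α) (τ * β) x = FF N α β x := by
  unfold FF
  refine Finset.prod_congr rfl fun n _ => ?_
  rw [mul_assoc, mul_assoc, cs_sign σ _ hσ, cs_sign τ _ hτ]

theorem BB_sign (σ τ α β x : ℝ) (hσ : σ = 1 ∨ σ = -1) (hτ : τ = 1 ∨ τ = -1) (N : ℕ) :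
    BB N (σ * α) (τ * β) x = BB N α β x := by
  unfold BB
  refine Finset.prod_congr rfl fun n _ => ?_
  rw [mul_assoc, mul_assoc, cs_sign σ _ hσ, cs_sign τ _ hτ]

theorem nest : S_NEST :=
  t_NEST (t_STF t_AR) (t_STB t_AR) t_SMF t_SMB (t_INIT t_AR)

theorem sign_ex (a : ℝ) : ∃ σ : ℝ, (σ = 1 ∨ σ = -1) ∧ a = σ * |a| := by
  rcases le_total 0 a with h | h
  · exact ⟨1, Or.inl rfl, by rw [abs_of_nonneg h, one_mul]⟩
  · exact ⟨-1, Or.inr rfl, by rw [abs_of_nonpos h]; ring⟩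

theorem sign_dist (σ a b : ℝ) (hσ : σ = 1 ∨ σ = -1) : |σ * a - σ * b| = |a - b| := by
  rcases hσ with rfl | rfl
  · rw [one_mul, one_mul]
  · rw [show (-1 : ℝ) * a - -1 * b = -(a - b) by ring, abs_neg]

theorem sign_irr (σ a : ℝ) (hσ : σ = 1 ∨ σ = -1) (ha : Irrational a) : Irrational (σ * a) := by
  rcases hσ with rfl | rfl
  · rwa [one_mul]
  · rw [neg_one_mul]
    exact ha.neg

/-- For a dense set of pairs `(α, β)` of irrational numbers with `1 < |α|, |β| < 2` there is an orbit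
`x₀ + ℤ`, `x₀ ∈ [0,1]`, with a nowhere vanishing solution of the twisted recurrence that tends to
`0` as `|N| → ∞`. -/
theorem result (α₀ β₀ ε : ℝ) (h1 : 1 < |α₀|) (h2 : |α₀| < 2) (h3 : 1 < |β₀|) (h4 : |β₀| < 2)
    (hε : 0 < ε) :
    ∃ α β : ℝ, |α - α₀| < ε ∧ |β - β₀| < ε ∧ Irrational α ∧ Irrational β ∧ α ≠ β ∧
      ∃ x₀ : ℝ, 0 ≤ x₀ ∧ x₀ ≤ 1 ∧ ∃ f : ℝ → ℂ, Holds α β x₀ f ∧ (∀ N : ℤ, f (x₀ + N) ≠ 0) ∧
        Tendsto (fun N : ℤ => f (x₀ + N)) cofinite (𝓝 0) := by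
  obtain ⟨α, β, x, ha, hb, hia, hib, hx0, hx1, hca, hcb, hF, hB⟩ :=
    nest |α₀| |β₀| h1 h2 h3 h4 ε hε
  obtain ⟨σ, hσ, hσa⟩ := sign_ex α₀
  obtain ⟨τ, hτ, hτb⟩ := sign_ex β₀
  have hca' : ∀ n : ℤ, cs (σ * α * (x + n)) ≠ 0 := fun n => by
    rw [mul_assoc, cs_sign σ _ hσ]
    exact hca n
  have hcb' : ∀ n : ℤ, cs (τ * β * (x + n)) ≠ 0 := fun n => by
    rw [mul_assoc, cs_sign τ _ hτ]
    exact hcb n
  have hF' : Tendsto (fun N => FF N (σ * α) (τ * β) x) atTop (𝓝 0) := by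
    simpa only [FF_sign σ τ α β x hσ hτ] using hF
  have hB' : Tendsto (fun N => BB N (σ * α) (τ * β) x) atTop (𝓝 0) := by
    simpa only [BB_sign σ τ α β x hσ hτ] using hB
  obtain ⟨f, hf1, hf2, hf3⟩ := t_FIN (σ * α) (τ * β) x hca' hcb' hF' hB'
  refine ⟨σ * α, τ * β, ?_, ?_, sign_irr σ α hσ hia, sign_irr τ β hτ hib, ?_, x, hx0, hx1, f, hf1,
    hf2, hf3⟩
  · rw [hσa, sign_dist σ α _ hσ]
    exact ha
  · rw [hτb, sign_dist τ β _ hτ]
    exact hb
  · intro heq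
    have hone : ∀ N, FF N (σ * α) (τ * β) x = 1 := by
      intro N
      rw [← heq]
      unfold FF
      refine Finset.prod_eq_one fun n _ => div_self ?_
      have := hca' (n : ℤ)
      simpa using this
    have h5 : Tendsto (fun _ : ℕ => (1 : ℝ)) atTop (𝓝 0) := by
      simpa only [hone] using hF'
    exact one_ne_zero (tendsto_nhds_unique tendsto_const_nhds h5)

end Pool.Agent.Results.MP_0ef687_an.DenseDecayingPairs
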